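import Pool.Agent.KS6_93.SP.Limsup

set_option autoImplicit false

/-!
# The growth exponent of set partition avoidance is at most `1 - 1 / (k - r)`

For every set partition `τ` of `[k]` with `r < k` blocks,
`limsup log A_n(τ) / (n log n) ≤ 1 - 1 / (k - r)`, i.e. `c(τ) ≤ k - r`. No assumption on the
existence of the limit is made, and the bound is attained by all partitions into intervals.

Set partitions of `[n]` are equivalence relations on `Fin n`. Idea of the proof: cut `[n]` into
`m` intervals. The elements of `τ` are put in `k - r + 1` consecutive parts: an element starts a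
new part if and only if it is not the least element of its block. If `k ^ 2` blocks of `σ` meet
the same `k - r` intervals, and each of them also meets some interval further to the left, then
`σ` contains `τ`: the blocks of `τ` can be embedded one after the other, since the least element
of a new block only has to lie above the preceding element. A double count shows that all but
`O(m ^ (k - r))` blocks of a `τ`-avoiding partition meet at most `k - r` intervals. With
`m` close to `n ^ (1 / (k - r))` the blocks can be linked in few ways, and the pieces inside the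
intervals again avoid `τ`.
-/

namespace Pool.Agent.Results.MP_dec6e8_co.BlocksExponent

open Filter Topology

/-- The set partition `σ` of `[n]` contains the set partition `τ` of `[k]`: there is a strictly
increasing map `f : [k] → [n]` such that `f x` and `f y` lie in the same block of `σ` if and only
if `x` and `y` lie in the same block of `τ`. -/
def Contains {n k : ℕ} (σ : Setoid (Fin n)) (τ : Setoid (Fin k)) : Prop :=
  ∃ f : Fin k → Fin n, StrictMono f ∧ ∀ x y, σ.r (f x) (f y) ↔ τ.r x y

/-- `A_n(τ)`: the number of set partitions of `[n]` which avoid `τ`. -/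
noncomputable def avoidCount {k : ℕ} (τ : Setoid (Fin k)) (n : ℕ) : ℕ :=
  Nat.card {σ : Setoid (Fin n) // ¬ Contains σ τ}

/-- `F_n(τ) = log A_n(τ) / (n log n)`. -/
noncomputable def F {k : ℕ} (τ : Setoid (Fin k)) (n : ℕ) : ℝ :=
  Real.log (avoidCount τ n) / (n * Real.log n)

/-- The number of blocks of `τ`. -/
noncomputable def numBlocks {k : ℕ} (τ : Setoid (Fin k)) : ℕ := Nat.card (Quotient τ)

theorem numBlocks_eq_one {k : ℕ} (τ : Setoid (Fin k)) (h : numBlocks τ ≤ 1) (x y : Fin k) :
    τ.r x y := by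
  have h1 : Subsingleton (Quotient τ) := Finite.card_le_one_iff_subsingleton.1 h
  exact Quotient.exact (Subsingleton.elim (Quotient.mk τ x) (Quotient.mk τ y))

theorem numBlocks_le {k : ℕ} (τ : Setoid (Fin k)) : numBlocks τ ≤ k := by
  classical
  have h := Fintype.card_quotient_le τ
  rw [Fintype.card_fin] at h
  unfold numBlocks
  rw [Nat.card_eq_fintype_card]
  exact h

/-- **Full answer to Q1 (affirmative), in a sharp form.**

(1) If `τ` is a partition of `[k]` with `r < k` blocks, then
`limsup F_n(τ) ≤ 1 - 1 / (k - r)`, that is `c(τ) ≤ k - r`. (The existence of `L(τ)` is not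
assumed. By the known value for partitions into intervals the bound is best possible for all
`1 ≤ r < k`.)

(2) If `τ` is a partition of `[k]` with `k ≥ 1` blocks, then `F_n(τ) → 0`.

(3) In particular, for `k ≥ 3` and a partition `τ` of `[k]` with at least two blocks,
`limsup F_n(τ) ≤ 1 - 1 / (k - 2)`.

(4) Q1: if `k ≥ 3` and `L(τ)` exists, then `L(τ) ≤ 1 - 1 / (k - 1)`, with equality only if `τ`
has just one block. -/
theorem result :
    (∀ (k : ℕ) (τ : Setoid (Fin k)), numBlocks τ < k → ∀ ε : ℝ, 0 < ε →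
      ∀ᶠ n : ℕ in atTop, F τ n ≤ 1 - 1 / ((k : ℝ) - numBlocks τ) + ε) ∧
    (∀ (k : ℕ) (τ : Setoid (Fin k)), 1 ≤ k → numBlocks τ = k →
      Tendsto (F τ) atTop (𝓝 0)) ∧
    (∀ (k : ℕ) (τ : Setoid (Fin k)), 3 ≤ k → 2 ≤ numBlocks τ → ∀ ε : ℝ, 0 < ε →
      ∀ᶠ n : ℕ in atTop, F τ n ≤ 1 - 1 / ((k : ℝ) - 2) + ε) ∧
    (∀ (k : ℕ) (τ : Setoid (Fin k)) (L : ℝ), 3 ≤ k → Tendsto (F τ) atTop (𝓝 L) →
      L ≤ 1 - 1 / ((k : ℝ) - 1) ∧ (L = 1 - 1 / ((k : ℝ) - 1) → ∀ x y : Fin k, τ.r x y)) := by
  have main : ∀ (k : ℕ) (τ : Setoid (Fin k)) (c : ℕ), 1 ≤ k → 1 ≤ c → k ≤ numBlocks τ + c →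
      ∀ ε : ℝ, 0 < ε → ∀ᶠ n : ℕ in atTop, F τ n ≤ 1 - 1 / (c : ℝ) + ε := by
    intro k τ c hk hc1 hc ε hε
    exact Pool.Agent.KS6_93.SP.limsup_bound τ c hk hc1 hc ε hε
  have h1 : ∀ (k : ℕ) (τ : Setoid (Fin k)), numBlocks τ < k → ∀ ε : ℝ, 0 < ε →
      ∀ᶠ n : ℕ in atTop, F τ n ≤ 1 - 1 / ((k : ℝ) - numBlocks τ) + ε := by
    intro k τ hr ε hε
    have h := main k τ (k - numBlocks τ) (by omega) (by omega) (by omega) ε hε
    rwa [Nat.cast_sub hr.le] at h
  have h2 : ∀ (k : ℕ) (τ : Setoid (Fin k)), 1 ≤ k → numBlocks τ = k →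
      Tendsto (F τ) atTop (𝓝 0) := by
    intro k τ hk hr
    rw [Metric.tendsto_nhds]
    intro ε hε
    filter_upwards [main k τ 1 hk le_rfl (by omega) (ε / 2) (by linarith)] with n hn
    have h0 : 0 ≤ F τ n := by
      unfold F
      exact div_nonneg (Real.log_natCast_nonneg _)
        (mul_nonneg (Nat.cast_nonneg _) (Real.log_natCast_nonneg _))
    rw [Real.dist_eq, sub_zero, abs_of_nonneg h0]
    norm_num at hn
    linarith
  have h3 : ∀ (k : ℕ) (τ : Setoid (Fin k)), 3 ≤ k → 2 ≤ numBlocks τ → ∀ ε : ℝ, 0 < ε →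
      ∀ᶠ n : ℕ in atTop, F τ n ≤ 1 - 1 / ((k : ℝ) - 2) + ε := by
    intro k τ hk hr ε hε
    have h := main k τ (k - 2) (by omega) (by omega) (by omega) ε hε
    rw [Nat.cast_sub (by omega)] at h
    exact h
  refine ⟨h1, h2, h3, ?_⟩
  intro k τ L hk hL
  have hkR : (3 : ℝ) ≤ k := by exact_mod_cast hk
  have key : ∀ U : ℝ, (∀ ε : ℝ, 0 < ε → ∀ᶠ n : ℕ in atTop, F τ n ≤ U + ε) → L ≤ U := by
    intro U hU
    apply le_of_forall_pos_le_add
    intro ε hε
    exact le_of_tendsto hL (hU ε hε)
  have hup : L ≤ 1 - 1 / ((k : ℝ) - 1) := by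
    apply key
    intro ε hε
    by_cases hr : numBlocks τ = 0
    · have hne : Nonempty (Quotient τ) := ⟨Quotient.mk τ ⟨0, by omega⟩⟩
      have : 0 < Nat.card (Quotient τ) := Nat.card_pos
      unfold numBlocks at hr
      omega
    · have h := main k τ (k - 1) (by omega) (by omega) (by omega) ε hε
      rw [Nat.cast_sub (by omega)] at h
      push_cast at h
      exact h
  refine ⟨hup, ?_⟩
  intro hE
  by_contra hcon
  have hr : 2 ≤ numBlocks τ := by
    by_contra hr
    exact hcon (numBlocks_eq_one τ (by omega))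
  have h4 := key _ (h3 k τ hk hr)
  have h5 : 1 / ((k : ℝ) - 1) < 1 / ((k : ℝ) - 2) :=
    one_div_lt_one_div_of_lt (by linarith) (by linarith)
  linarith

end Pool.Agent.Results.MP_dec6e8_co.BlocksExponent
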